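import Pool.Agent.H543.MQ.V.V3

/-!
# Families of polynomials and moduli up to a power: the theorem for polynomials
-/

set_option autoImplicit false
set_option linter.unusedSectionVars false

namespace Pool.Agent.H543.MQ.V

open Finset Filter Polynomial
open Pool.Agent.R498.MT (QG QG_eval QG_ne_zero)
open Pool.Agent.Y677.RSZ (Sys)
open Pool.Agent.H543.DP (fv dt)
open Pool.Agent.H543.MQ.U (Gf Gf_mono Gf_of_mul QG_deg Sys0 sys0_poly clu_poly)

open Classical in
/-- **Clusters of values with at most two prime factors, uniformly in the companion polynomial, in the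
set of shifts and in the classes.** -/
theorem clu_poly_q (A : ℕ) (B C : ℤ) (hA : 1 ≤ A) (hna : ¬ IsSquare (B ^ 2 - 4 * (A : ℤ) * C)) :
    ∃ δ₀ : ℝ, 0 < δ₀ ∧ δ₀ ≤ 1 / 100 ∧ ∀ D₀ : ℕ, ∃ Cc : ℝ, 0 < Cc ∧ ∀ m : ℕ,
    ∃ (K₀ D : ℕ) (δ : ℝ), 0 < δ ∧ (K₀ : ℝ) ≤ Real.exp (Real.exp (Cc * (m + 1))) ∧
      (∀ᶠ N : ℕ in atTop, ∀ g : ℤ[X], g.natDegree ≤ D₀ →
        (∀ p : ℕ, p.Prime → ∃ n : ℤ, ¬ (p : ℤ) ∣ fv A B C n * g.eval n) →
        ∀ q a : ℕ, 0 < q → (q : ℝ) ≤ (N : ℝ) ^ δ →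
        (∀ p : ℕ, p.Prime → p ∣ q → ¬ (p : ℤ) ∣ fv A B C a * g.eval (a : ℤ)) →
        ∀ S : Finset ℕ, K₀ ≤ S.card → (∀ h ∈ S, (h : ℝ) ≤ (N : ℝ) ^ δ) →
        ∀ X : ℕ, (N : ℝ) ^ (1 - δ₀) ≤ X → 2 * X ≤ N →
        ∃ H ⊆ S, H.card = m ∧
          X / (q * Real.log N ^ D) ≤ (((Ioc N (N + X)).filter (fun n : ℕ => n % q = a % q ∧
            ∀ h ∈ H, Gf A B C (fun n => g.eval n) N δ (n + q * h))).card : ℝ)) ∧
      (∀ g : ℤ[X], g.natDegree ≤ D₀ →
        (∀ p : ℕ, p.Prime → ∃ n : ℤ, ¬ (p : ℤ) ∣ fv A B C n * g.eval n) →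
        ∀ HH : Finset ℕ, K₀ ≤ HH.card → ∀ l : ℕ, 2 ≤ l →
        ∃ B' : ℕ, ∀ᶠ N : ℕ in atTop, ∀ X : ℕ, (N : ℝ) ^ (1 - δ₀) ≤ X → 2 * X ≤ N →
        ∃ H ⊆ HH, H.card = m ∧
          X / Real.log N ^ D ≤ (((Ioc N (N + X)).filter (fun n : ℕ => ∀ h ∈ H,
            Gf A B C (fun n => g.eval n) N δ (n + h))).card : ℝ) ∧
          ∃ n d : ℕ, N < n ∧ n + (l - 1) * d ≤ N + X ∧ 1 ≤ d ∧
          (d : ℝ) ≤ Real.log N ^ B' ∧
          ∀ j < l, ∀ h ∈ H, Gf A B C (fun n => g.eval n) N δ (n + j * d + h)) := by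
  classical
  obtain ⟨δ₁, hδ₁, hδ₁1, hcl1⟩ := clu_poly A B C hA hna
  by_cases hfd : ∀ p : ℕ, p.Prime → ∃ n : ℤ, ¬ (p : ℤ) ∣ fv A B C n
  swap
  · have hno : ∀ g : ℤ[X], ¬ ∀ p : ℕ, p.Prime → ∃ n : ℤ, ¬ (p : ℤ) ∣ fv A B C n * g.eval n := by
      intro g hg
      apply hfd
      intro p hp
      obtain ⟨n, hn⟩ := hg p hp
      exact ⟨n, fun h => hn (Dvd.dvd.mul_right h _)⟩
    refine ⟨1 / 100, by norm_num, le_rfl, fun D₀ => ⟨1, one_pos, fun m => ⟨0, 0, 1, one_pos, ?_, ?_,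
      ?_⟩⟩⟩
    · rw [Nat.cast_zero]
      positivity
    · exact Eventually.of_forall fun N g _ hg => absurd hg (hno g)
    · exact fun g _ hg => absurd hg (hno g)
  have hΔ : ¬ IsSquare (-(dt A B C)) := by
    have e : B ^ 2 - 4 * (A : ℤ) * C = -(dt A B C) := by unfold dt; ring
    rw [← e]
    exact hna
  have hGne : QG A B C ≠ 0 := by
    intro h
    have := congrArg (fun Q : ℤ[X] => Q.eval 0) h
    simp only [QG_eval, eval_zero] at this
    exact QG_ne_zero A B C hna 0 this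
  have hGd : ∀ p : ℕ, p.Prime → ∃ n : ℤ, ¬ (p : ℤ) ∣ (QG A B C).eval n := by
    intro p hp
    obtain ⟨n, hn⟩ := hfd p hp
    refine ⟨n, fun h => hn ?_⟩
    rwa [QG_eval] at h
  obtain ⟨g₁, hg₁⟩ := Pool.Agent.Y677.RSZ.poly_all (QG A B C) hGne hGd
  rw [Pool.Agent.H543.MQ.fv_QG] at hg₁
  obtain ⟨δ₂, hδ₂, hδ₂1, hcl2⟩ := clu_q A B C hA hΔ (A + B.natAbs + C.natAbs) (fun n => by
      constructor
      · show (A : ℤ) * (n : ℤ) ^ 2 + B * n + C ≠ 0
        exact QG_ne_zero A B C hna _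
      · show ((A : ℤ) * (n : ℤ) ^ 2 + B * n + C).natAbs ≤ _
        have h1 : ((A : ℤ) * (n : ℤ) ^ 2 + B * n + C).natAbs ≤
            A * n ^ 2 + B.natAbs * n + C.natAbs := by
          calc ((A : ℤ) * (n : ℤ) ^ 2 + B * n + C).natAbs ≤
                ((A : ℤ) * (n : ℤ) ^ 2 + B * n).natAbs + C.natAbs := Int.natAbs_add_le _ _
            _ ≤ ((A : ℤ) * (n : ℤ) ^ 2).natAbs + (B * n).natAbs + C.natAbs := by
                have := Int.natAbs_add_le ((A : ℤ) * (n : ℤ) ^ 2) (B * n)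
                omega
            _ = _ := by
                rw [Int.natAbs_mul, Int.natAbs_mul, Int.natAbs_pow, Int.natAbs_natCast,
                  Int.natAbs_natCast]
        refine h1.trans ?_
        nlinarith [Nat.zero_le (A * n), Nat.zero_le (B.natAbs * n ^ 2),
          Nat.zero_le (B.natAbs * n), Nat.zero_le (C.natAbs * n), Nat.zero_le (C.natAbs * n ^ 2),
          Nat.zero_le A, Nat.zero_le B.natAbs, Nat.zero_le C.natAbs])
  refine ⟨min δ₁ δ₂, lt_min hδ₁ hδ₂, (min_le_left _ _).trans hδ₁1, fun D₀ => ?_⟩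
  obtain ⟨C1, hC1, hcl1⟩ := hcl1 D₀
  obtain ⟨C2, hC2, hcl2⟩ := hcl2 (D₀ + 2 + g₁ + 1) (by omega)
    (Pool.Agent.Y677.RSZ.Sys.mono hg₁ (by omega))
  refine ⟨max C1 C2, lt_max_of_lt_left hC1, fun m => ?_⟩
  obtain ⟨K1, D1, η1, hη1, hK1, -, h1⟩ := hcl1 m
  obtain ⟨K2, D2, η2, hη2, hK2, h2⟩ := hcl2 m
  have hm0 : (0 : ℝ) ≤ (m : ℝ) + 1 := by positivity
  have heval : ∀ (g : ℤ[X]) (n : ℤ), (QG A B C * g).eval n = fv A B C n * g.eval n := by
    intro g n
    rw [eval_mul, QG_eval]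
    rfl
  have hlog : ∀ᶠ N : ℕ in atTop, (1 : ℝ) ≤ Real.log (N : ℝ) :=
    (Real.tendsto_log_atTop.comp tendsto_natCast_atTop_atTop).eventually_ge_atTop _
  refine ⟨max K1 K2, max D1 D2, min η1 η2, lt_min hη1 hη2, ?_, ?_, ?_⟩
  · rw [Nat.cast_max]
    apply max_le
    · refine hK1.trans (Real.exp_le_exp.2 (Real.exp_le_exp.2 ?_))
      exact mul_le_mul_of_nonneg_right (le_max_left _ _) hm0
    · refine hK2.trans (Real.exp_le_exp.2 (Real.exp_le_exp.2 ?_))
      exact mul_le_mul_of_nonneg_right (le_max_right _ _) hm0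
  · filter_upwards [h2, hlog, eventually_ge_atTop 1] with N hN hl hN1 g hgd hg q a hq hqN haq S hS hSb X
      hX1 hX2
    have hN1r : (1 : ℝ) ≤ N := by exact_mod_cast hN1
    have hpw : (N : ℝ) ^ (min η1 η2) ≤ (N : ℝ) ^ η2 :=
      Real.rpow_le_rpow_of_exponent_le hN1r (min_le_right _ _)
    obtain ⟨H, hH, hHm, hnum⟩ := hN (fun n => (QG A B C * g).eval n) (by
        apply sys0_poly
        · have h3 := natDegree_mul_le (p := QG A B C) (q := g)
          have h4 := QG_deg A B C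
          omega
        · intro p hp
          obtain ⟨n, hn⟩ := hg p hp
          exact ⟨n, by rwa [heval]⟩) (by
        intro p _ n hn
        show (p : ℤ) ∣ (QG A B C * g).eval n
        rw [heval]
        exact Dvd.dvd.mul_right hn _) q a hq (hqN.trans hpw) (by
        intro p hp hpq
        show ¬ (p : ℤ) ∣ (QG A B C * g).eval (a : ℤ)
        rw [heval]
        exact haq p hp hpq) S ((le_max_right _ _).trans hS) (fun h hh => (hSb h hh).trans hpw) X
      (le_trans (Real.rpow_le_rpow_of_exponent_le hN1r (by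
        have := min_le_right δ₁ δ₂
        linarith)) hX1) hX2
    refine ⟨H, hH, hHm, ?_⟩
    have hqr : (0 : ℝ) < q := by exact_mod_cast hq
    calc (X : ℝ) / (q * Real.log N ^ max D1 D2) ≤ X / (q * Real.log N ^ D2) := by
          apply div_le_div_of_nonneg_left (Nat.cast_nonneg _) (by positivity)
          apply mul_le_mul_of_nonneg_left _ hqr.le
          exact pow_le_pow_right₀ hl (le_max_right _ _)
      _ ≤ _ := hnum
      _ ≤ _ := by
          have : ((Ioc N (N + X)).filter (fun n : ℕ => n % q = a % q ∧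
              ∀ h ∈ H, Gf A B C (fun n => (QG A B C * g).eval n) N η2 (n + q * h))).card ≤
              ((Ioc N (N + X)).filter (fun n : ℕ => n % q = a % q ∧
              ∀ h ∈ H, Gf A B C (fun n => g.eval n) N (min η1 η2) (n + q * h))).card :=
            card_le_card (fun n hn => by
              rw [mem_filter] at hn ⊢
              exact ⟨hn.1, hn.2.1, fun h hh => Gf_mono A B C _ N _ η2 (min_le_right _ _) hN1 _
                (Gf_of_mul A B C g N η2 _ (hn.2.2 h hh))⟩)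
          exact_mod_cast this
  · intro g hgd hg HH hHH l hl
    obtain ⟨B', hB⟩ := h1 g hgd hg HH ((le_max_left _ _).trans hHH) l hl
    refine ⟨B', ?_⟩
    filter_upwards [hB, hlog, eventually_ge_atTop 1] with N hN hlN hN1 X hX1 hX2
    have hN1r : (1 : ℝ) ≤ N := by exact_mod_cast hN1
    obtain ⟨H, hH, hHm, hnum, n, d, a1, a2, a3, a4, a5⟩ := hN X
      (le_trans (Real.rpow_le_rpow_of_exponent_le hN1r (by
        have := min_le_left δ₁ δ₂
        linarith)) hX1) hX2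
    refine ⟨H, hH, hHm, ?_, n, d, a1, a2, a3, a4, fun j hj h hh =>
      Gf_mono A B C _ N _ η1 (min_le_left _ _) hN1 _ (a5 j hj h hh)⟩
    calc (X : ℝ) / Real.log N ^ max D1 D2 ≤ X / Real.log N ^ D1 := by
          apply div_le_div_of_nonneg_left (Nat.cast_nonneg _) (by positivity)
          exact pow_le_pow_right₀ hlN (le_max_left _ _)
      _ ≤ _ := hnum
      _ ≤ _ := by
          have : ((Ioc N (N + X)).filter (fun n : ℕ =>
              ∀ h ∈ H, Gf A B C (fun n => g.eval n) N η1 (n + h))).card ≤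
              ((Ioc N (N + X)).filter (fun n : ℕ =>
              ∀ h ∈ H, Gf A B C (fun n => g.eval n) N (min η1 η2) (n + h))).card :=
            card_le_card (fun n hn => by
              rw [mem_filter] at hn ⊢
              exact ⟨hn.1, fun h hh => Gf_mono A B C _ N _ η1 (min_le_left _ _) hN1 _
                (hn.2 h hh)⟩)
          exact_mod_cast this

end Pool.Agent.H543.MQ.V
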