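import Pool.Agent.H543.MQ.U.U2

/-!
# Maynard's weights and values with at most two prime factors: assembly of the core
-/

set_option autoImplicit false
set_option linter.unusedSectionVars false

namespace Pool.Agent.H543.MQ.V

open Finset Filter
open Pool.Agent.R498.MT hiding Vp_low pt_up exb' c1z
open Pool.Agent.H543.MQ hiding pre core1q core2
open Pool.Agent.H543.MQ.U hiding core2
open Pool.Agent.Y677.RSZ (rt Sys rhoT per_mod ev_log)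
open Pool.Agent.TH423.SH (PS)
open Pool.Agent.W23.DC
open Pool.Agent.Y882
open Pool.Agent.Y882.PX hiding gd
open Pool.Agent.Y882.KW
open Pool.Agent.Y346.PA (S_KL)
open Pool.Agent.H543.DD
open Pool.Agent.H543.DP (fv NV dt NS cF)

/-- the sizes of the shifts and of the modulus -/
theorem nt_size2 (g Bn : ℕ) (ε₁ η : ℝ) (hε : 0 < ε₁) (hε2 : ε₁ ≤ 12 / 100) (hη : 0 < η)
    (hη1 : η * (2 * (g + 1)) ≤ ε₁) :
    ∀ᶠ N : ℕ in atTop, ∀ W NT : ℕ, (W : ℝ) ≤ (N : ℝ) ^ η → (NT : ℝ) ≤ (N : ℝ) ^ η →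
      ((W * NT) ^ g + W + 2 : ℝ) ≤ ((N ^ 2 : ℕ) : ℝ) ^ ε₁ ∧
      2 * (W * NT + W) + 2 * Bn + W + 3 ≤ N := by
  have hT := tendsto_natCast_atTop_atTop (R := ℝ)
  have v1 : ∀ᶠ N : ℕ in atTop, (4 : ℝ) ≤ (N : ℝ) ^ ε₁ :=
    ((tendsto_rpow_atTop hε).comp hT).eventually_ge_atTop _
  have v2 : ∀ᶠ N : ℕ in atTop, (2 + 3 + 2 * Bn + 3 : ℝ) ≤ (N : ℝ) ^ (1 / 2 : ℝ) :=
    ((tendsto_rpow_atTop (by norm_num)).comp hT).eventually_ge_atTop _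
  filter_upwards [v1, v2, eventually_ge_atTop 1] with N h1 h2 h3 W NT hW hNT
  have hN1 : (1 : ℝ) ≤ N := by exact_mod_cast h3
  have hN0 : (0 : ℝ) < N := by linarith
  have hg0 : (0 : ℝ) ≤ (g : ℝ) := Nat.cast_nonneg g
  have hWr : (0 : ℝ) ≤ W := Nat.cast_nonneg W
  have hηε : η ≤ ε₁ := by nlinarith
  have hprod : (W : ℝ) * NT ≤ (N : ℝ) ^ (2 * η) := by
    calc (W : ℝ) * NT ≤ (N : ℝ) ^ η * (N : ℝ) ^ η := mul_le_mul hW hNT (Nat.cast_nonneg _) (by positivity)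
      _ = _ := by rw [← Real.rpow_add hN0]; congr 1; ring
  constructor
  · have e1 : ((W : ℝ) * NT) ^ g ≤ (N : ℝ) ^ ε₁ := by
      calc ((W : ℝ) * NT) ^ g ≤ ((N : ℝ) ^ (2 * η)) ^ g :=
            pow_le_pow_left₀ (by positivity) hprod _
        _ = (N : ℝ) ^ (2 * η * g) := by
            rw [← Real.rpow_natCast, ← Real.rpow_mul hN0.le]
        _ ≤ _ := by
            apply Real.rpow_le_rpow_of_exponent_le hN1
            nlinarith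
    have e2 : (W : ℝ) ≤ (N : ℝ) ^ ε₁ := hW.trans (Real.rpow_le_rpow_of_exponent_le hN1 hηε)
    have e3 : ((N ^ 2 : ℕ) : ℝ) ^ ε₁ = (N : ℝ) ^ ε₁ * (N : ℝ) ^ ε₁ := by
      push_cast
      rw [sq, Real.mul_rpow hN0.le hN0.le]
    rw [e3]
    nlinarith
  · have e0 : (N : ℝ) ^ (2 * η) ≤ (N : ℝ) ^ (1 / 2 : ℝ) := by
      apply Real.rpow_le_rpow_of_exponent_le hN1
      nlinarith
    have e1 : (W : ℝ) ≤ (N : ℝ) ^ (1 / 2 : ℝ) := by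
      refine hW.trans (Real.rpow_le_rpow_of_exponent_le hN1 ?_)
      linarith
    have e2 : (N : ℝ) = (N : ℝ) ^ (1 / 2 : ℝ) * (N : ℝ) ^ (1 / 2 : ℝ) := by
      rw [← Real.rpow_add hN0]
      norm_num
    have e3 : (1 : ℝ) ≤ (N : ℝ) ^ (1 / 2 : ℝ) := Real.one_le_rpow hN1 (by norm_num)
    have e4 : ((2 * (W * NT + W) + 2 * Bn + W + 3 : ℕ) : ℝ) ≤ N := by
      push_cast
      rw [e2]
      have h5 := hprod.trans e0
      calc (2 * ((W : ℝ) * NT + W) + 2 * Bn + W + 3 : ℝ) ≤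
          2 * (N : ℝ) ^ (1 / 2 : ℝ) + 3 * (N : ℝ) ^ (1 / 2 : ℝ) + (2 * Bn + 3) * 1 := by linarith
        _ ≤ 2 * (N : ℝ) ^ (1 / 2 : ℝ) + 3 * (N : ℝ) ^ (1 / 2 : ℝ) +
            (2 * Bn + 3) * (N : ℝ) ^ (1 / 2 : ℝ) := by
            have := mul_le_mul_of_nonneg_left e3 (show (0 : ℝ) ≤ 2 * Bn + 3 by positivity)
            linarith
        _ = (2 + 3 + 2 * Bn + 3) * (N : ℝ) ^ (1 / 2 : ℝ) := by ring
        _ ≤ _ := mul_le_mul_of_nonneg_right h2 (by positivity)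
    exact_mod_cast e4

theorem a6aux (κ x y lg w : ℝ) (hN : 1 ≤ x) (h0 : 0 ≤ w)
    (a6' : y * lg ≤ x ^ (κ / 4)) (h1 : w ≤ x ^ (κ / 4)) : y * w * lg ≤ x ^ (κ / 2) := by
  calc y * w * lg = (y * lg) * w := by ring
    _ ≤ x ^ (κ / 4) * x ^ (κ / 4) := mul_le_mul a6' h1 h0 (by positivity)
    _ = _ := by
          rw [← Real.rpow_add (by linarith)]
          congr 1
          ring

theorem a4aux (A W N : ℕ) (ε₁ η : ℝ) (g : ℕ) (hN1 : (1 : ℝ) ≤ N) (hη : 0 < η)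
    (hη1 : η * (2 * (g + 1)) ≤ ε₁) (hW : (W : ℝ) ≤ (N : ℝ) ^ η) (hW1 : (1 : ℝ) ≤ W)
    (h : ((2 * A : ℕ) : ℝ) + 1 ≤ (N : ℝ) ^ ε₁) :
    ((2 * A * W : ℕ) : ℝ) + 1 ≤ ((N ^ 2 : ℕ) : ℝ) ^ ε₁ := by
  have hN0 : (0 : ℝ) < N := by linarith
  have e3 : ((N ^ 2 : ℕ) : ℝ) ^ ε₁ = (N : ℝ) ^ ε₁ * (N : ℝ) ^ ε₁ := by
    push_cast
    rw [sq, Real.mul_rpow hN0.le hN0.le]
  have hηε : η ≤ ε₁ := by
    have : (0 : ℝ) ≤ g := Nat.cast_nonneg g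
    nlinarith
  have h1 : (W : ℝ) ≤ (N : ℝ) ^ ε₁ := hW.trans (Real.rpow_le_rpow_of_exponent_le hN1 hηε)
  rw [e3]
  have hA0r : (0 : ℝ) ≤ A := Nat.cast_nonneg A
  calc ((2 * A * W : ℕ) : ℝ) + 1 ≤ (((2 * A : ℕ) : ℝ) + 1) * W := by
        push_cast
        linarith
    _ ≤ _ := mul_le_mul h h1 (by linarith) (by positivity)

theorem eta_le (g : ℕ) (ε₁ η : ℝ) (hη : 0 < η) (hη1 : η * (2 * (g + 1)) ≤ ε₁) : η ≤ ε₁ := by
  have : (0 : ℝ) ≤ g := Nat.cast_nonneg g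
  nlinarith

open Classical in
/-- **The core for values with at most two prime factors.** -/
theorem core2 (kl : S_KL) (A : ℕ) (B C : ℤ) (hA : 1 ≤ A) (hna : ¬ IsSquare (-(dt A B C)))
    (D : ℕ) (hGs : ∀ n : ℕ, fv A B C (n : ℤ) ≠ 0 ∧ (fv A B C (n : ℤ)).natAbs ≤ (n + 2) ^ D)
    (hMer : ∀ ε₁ υ η : ℝ, 0 < ε₁ → υ ≤ 1 → 0 < η → ∃ Y0 : ℕ, ∀ Y : ℕ, Y0 ≤ Y →
      Mer (pr Y ε₁ υ) (tt Y) (fun p => (rt (fv A B C) p : ℝ) / p) ε₁ υ η) :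
    ∃ κ : ℝ, 0 < κ ∧ κ ≤ 1 / 100 ∧ ∀ g : ℕ, Sys g (fv A B C) →
      ∃ Cc : ℝ, 0 < Cc ∧ ∀ m : ℕ,
      ∃ k W₀ : ℕ, ((W₀ * 2 ^ k : ℕ) : ℝ) ≤ Real.exp (Real.exp (Cc * (m + 1))) ∧
      0 < W₀ ∧ Squarefree W₀ ∧
      (∀ p : ℕ, p.Prime → p ≤ g * 2 ^ k + 1 → p ∣ W₀) ∧
      g ≤ W₀ ∧ ∃ ε₁ c η : ℝ, 0 < ε₁ ∧ ε₁ ≤ pζ ∧ 0 < c ∧ 0 < η ∧ η * (2 * (g + 1)) ≤ ε₁ ∧
      η ≤ κ / 16 ∧
      ∃ N₀ : ℕ, ∀ N : ℕ, N₀ ≤ N → ∀ W : ℕ, 0 < W → W₀ ∣ W → (W : ℝ) ≤ (N : ℝ) ^ η →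
        ∀ (t : Fin (2 ^ k) → ℕ), Function.Injective t →
        (∀ i, (t i : ℝ) ≤ (N : ℝ) ^ η) →
        ∀ (F : ℤ → ℤ), Sys0 g F →
        (∀ p : ℕ, p.Prime → ∀ n : ℤ, (p : ℤ) ∣ fv A B C n → (p : ℤ) ∣ F n) →
        ∀ b : ℕ, b < W → (∀ p : ℕ, p.Prime → p ∣ W → ¬ (p : ℤ) ∣ F b) →
        ∀ M L z : ℕ, N ≤ W * M → 2 * (W * M) ≤ 3 * N →
        (N : ℝ) ^ (1 - κ) ≤ L → 2 * (W * L) ≤ N →
        (z : ℝ) < ((N ^ 2 : ℕ) : ℝ) ^ ε₁ → ((N ^ 2 : ℕ) : ℝ) ^ ε₁ ≤ z + 1 →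
        c * (L * Vp F W b z t) ≤
          ((gd F (fv A B C) (N ^ 2) ε₁ pζ pυ pa pb W b t m M L).card : ℝ) ∧
        0 < Vp F W b z t ∧
        1 ≤ Real.log ((N ^ 2 : ℕ) : ℝ) ^ (2 * (g * 2 ^ k) + 1) * Vp F W b z t := by
  obtain ⟨A0, FF, ff, hSF⟩ := Pool.Agent.W366.DC.SFX
  have hζ0 : 0 < pζ := by unfold pζ; norm_num
  have hζυ : pζ ≤ pυ := by unfold pζ pυ; norm_num
  have hυ1 : pυ ≤ 1 := by unfold pυ; norm_num
  have hpa : 0 ≤ pa := by unfold pa; norm_num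
  have hpb : 0 ≤ pb := by unfold pb; norm_num
  have hpab : pb * pυ ≤ pa := by unfold pb pυ pa; norm_num
  obtain ⟨E2, hE2, hE2ζ, f0, e1, hf0, he1, he12, HW⟩ := wts A0 FF ff hSF (49992 / 100000)
    (416 / 10000) pζ pυ pa pb (49994 / 100000) hζ0 ⟨12 / 100, by unfold pζ; norm_num⟩
    (by unfold pζ; norm_num) (fun _ => by unfold pζ; norm_num) hζυ
    (by unfold pυ; norm_num) (by norm_num) hpa hpb hpab (by norm_num) (by norm_num)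
    (num_pos A0 FF ff hSF)
  have hE2r : (0 : ℝ) < E2 := by exact_mod_cast hE2
  obtain ⟨κ, hκ, hκ1, HB⟩ := b1_quad kl A B C hA hna (49994 / 100000) (416 / 10000) (1 / E2)
    (by norm_num) (by norm_num) (by positivity)
  refine ⟨κ, hκ, hκ1, ?_⟩
  intro g hG
  obtain ⟨R, hRdef⟩ : ∃ R : ℝ, R = min (κ / 48) (pζ / 2) := ⟨_, rfl⟩
  have hR : 0 < R := by rw [hRdef]; exact lt_min (by positivity) (by positivity)
  have hRκ : R ≤ κ / 48 := by rw [hRdef]; exact min_le_left _ _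
  have hRζ : R < pζ := by
    have : R ≤ pζ / 2 := by rw [hRdef]; exact min_le_right _ _
    linarith
  obtain ⟨C1, hC1, hC⟩ := c1z
  obtain ⟨C2, hC2, hP⟩ := Pool.Agent.H543.MQ.U.pre
  obtain ⟨Cc, hCc, hKb⟩ := K_bound (C1 + C2) g (3 * 1474560 / (f0 * R)) (by positivity)
  refine ⟨Cc, hCc, ?_⟩
  intro m
  -- the number of the slots
  obtain ⟨k, hk, hkup⟩ : ∃ k : ℕ, 3 * ((m : ℝ) + 1) * 1474560 ≤ f0 * R * k ∧
      (k : ℝ) ≤ 3 * 1474560 / (f0 * R) * (m + 1) + 1 := by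
    refine ⟨⌈3 * ((m : ℝ) + 1) * 1474560 / (f0 * R)⌉₊, ?_, ?_⟩
    · have hk := Nat.le_ceil (3 * ((m : ℝ) + 1) * 1474560 / (f0 * R))
      rw [div_le_iff₀ (by positivity)] at hk
      linarith
    · have hk := Nat.ceil_lt_add_one (show 0 ≤ 3 * ((m : ℝ) + 1) * 1474560 / (f0 * R) by positivity)
      refine hk.le.trans (le_of_eq ?_)
      ring
  obtain ⟨W₀, hW₀pos, hW₀sq, hW₀p, hgW₀, hWup⟩ := exW2 ((C1 + C2) * (g * 2 ^ k + 1) + (g * 2 ^ k + 1)) g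
  have hCl1 : C1 * (g * 2 ^ k + 1) ≤ (C1 + C2) * (g * 2 ^ k + 1) :=
    Nat.mul_le_mul_right _ (by omega)
  have hCl2 : C2 * (g * 2 ^ k + 1) ≤ (C1 + C2) * (g * 2 ^ k + 1) :=
    Nat.mul_le_mul_right _ (by omega)
  obtain ⟨CC, hCC⟩ : ∃ CC : ℝ, CC = 3 * (1 + pa) := ⟨_, rfl⟩
  have hCC0 : 0 ≤ CC := by rw [hCC]; positivity
  -- the presieve
  obtain ⟨E1, b₀, hE1, hEe1, hEe, hb₀, hbE, hεb⟩ := par' CC R k (C1 + C2)
    ((C1 + C2) * (g * 2 ^ k + 1)) hCC0 hR e1 (κ / 16) he1 (by positivity)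
  have hE1r : (0 : ℝ) < E1 := by exact_mod_cast hE1
  obtain ⟨η, Kf, hη, HW⟩ := HW E1 hE1 hEe1
  obtain ⟨ε₁, hε₁⟩ : ∃ ε₁ : ℝ, ε₁ = 1 / E1 := ⟨_, rfl⟩
  rw [← hε₁] at hEe1 hEe hbE hεb HW
  have hε : 0 < ε₁ := by rw [hε₁]; positivity
  have hε2 : ε₁ ≤ 1 / E2 := hEe1.trans he12
  have hεζ : ε₁ ≤ pζ := hε2.trans hE2ζ
  have hε11 : ε₁ ≤ 1 := hEe.trans (e0_le k CC R).2
  obtain ⟨cV, hcV, hVlow⟩ := Vp_low g (2 ^ k)
  have hAb := Ab_one k ε₁ hε hε11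
  have hom := om_bd k CC ε₁ hCC0 hε hε11
  obtain ⟨c', hc'⟩ : ∃ c' : ℕ, ((2 ^ k : ℕ) : ℝ) * (2 * D / ε₁) ≤ c' := exists_nat_ge _
  obtain ⟨cR, hcR⟩ : ∃ cR : ℕ, 2 * R / ε₁ ≤ cR := exists_nat_ge _
  obtain ⟨η', hη'⟩ : ∃ η' : ℝ, η' = min (ε₁ / (2 * (g + 1))) (κ / 16) := ⟨_, rfl⟩
  have hη0 : 0 < η' := by rw [hη']; exact lt_min (by positivity) (by positivity)
  have hη1 : η' * (2 * (g + 1)) ≤ ε₁ := by
    have h1 : η' ≤ ε₁ / (2 * (g + 1)) := by rw [hη']; exact min_le_left _ _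
    rwa [le_div_iff₀ (by positivity)] at h1
  have hη2 : η' ≤ κ / 16 := by rw [hη']; exact min_le_right _ _
  refine ⟨k, W₀, hKb m k W₀ hkup hWup, hW₀pos, hW₀sq, fun p hp hpk => hW₀p p hp (by omega), hgW₀, ε₁,
    1 / (2 ^ k * (Ab k ε₁ * 2 ^ c') ^ 2), η', hε, hεζ, by positivity, hη0, hη1, hη2, ?_⟩
  obtain ⟨Y1, hY1⟩ := hMer ε₁ pυ η hε hυ1 hη
  obtain ⟨Y2, hY2⟩ := dat_of g (fv A B C) (fun p hp => (hG.root p hp).1) ε₁ pυ R (om k CC ε₁) hε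
    (by linarith) hυ1 hom.1 (hMer ε₁ pυ (1 / 40) hε hυ1 (by norm_num))
  obtain ⟨Y3, hY3⟩ := exJ ε₁ hε
  obtain ⟨N1, hN1⟩ := HB ε₁ pυ Kf (1 + pa) hε hε2 (by linarith)
  -- conditions for `Y = N ^ 2`
  have ev1 := nt_size2 g B.natAbs ε₁ η' hε (hεζ.trans (by unfold pζ; norm_num)) hη0 hη1
  have ev2 := ev_log (2 * (g * 2 ^ k)) (2 ^ b₀ * 3 ^ (2 * (g * 2 ^ k)) / cV)
    (((1 - κ) / 2 - 2 * R) / 2) (by
      have : 2 * R ≤ κ / 24 := by linarith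
      linarith)
  have ev3 : ∀ᶠ Y : ℕ in atTop, 3 ^ (2 * (g * 2 ^ k)) / cV ≤ Real.log (Y : ℝ) :=
    (Real.tendsto_log_atTop.comp tendsto_natCast_atTop_atTop).eventually_ge_atTop _
  obtain ⟨Y4, hY4⟩ := eventually_atTop.1 (ev2.and ev3)
  have ev5 := ev_log (2 * (g * 2 ^ k)) (Ab k ε₁ ^ 2 * (2 ^ (k + 1)) ^ cR * 2 * (8 * 2 ^ k) *
    6 ^ (2 * (g * 2 ^ k)) / cV) (κ / 4) (by positivity)
  have ev6 : ∀ᶠ N : ℕ in atTop, ((2 * A : ℕ) : ℝ) + 1 ≤ (N : ℝ) ^ ε₁ :=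
    ((tendsto_rpow_atTop hε).comp tendsto_natCast_atTop_atTop).eventually_ge_atTop _
  obtain ⟨N5, hN5⟩ := eventually_atTop.1 (ev5.and ((eventually_ge_atTop 5).and (ev1.and ev6)))
  refine ⟨max (max (max Y1 Y2) (max Y3 Y4)) (max N1 N5), ?_⟩
  intro N hN W hWpos hWdvd hWN t ht hti F hF hGF b hbltW hbW M L z hM1 hM2 hL1 hL2 hz1 hz2
  have hWr : (1 : ℝ) ≤ W := by exact_mod_cast hWpos
  have hgW : g ≤ W := hgW₀.trans (Nat.le_of_dvd hWpos hWdvd)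
  have hWp := fun (p : ℕ) (hp : p.Prime) hpk => (hW₀p p hp hpk).trans hWdvd
  have hNN : N ≤ N ^ 2 := Nat.le_self_pow (by norm_num) N
  have hM := hY1 (N ^ 2) ((((le_max_left _ _).trans (le_max_left _ _)).trans
    ((le_max_left _ _).trans hN)).trans hNN)
  have hd := hY2 (N ^ 2) ((((le_max_right _ _).trans (le_max_left _ _)).trans
    ((le_max_left _ _).trans hN)).trans hNN)
  obtain ⟨J, hJ1, hJ2⟩ := hY3 (N ^ 2) ((((le_max_left _ _).trans (le_max_right _ _)).trans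
    ((le_max_left _ _).trans hN)).trans hNN)
  obtain ⟨a2, a3⟩ := hY4 (N ^ 2) ((((le_max_right _ _).trans (le_max_right _ _)).trans
    ((le_max_left _ _).trans hN)).trans hNN)
  have hbil := hN1 N (((le_max_left _ _).trans (le_max_right _ _)).trans hN)
  obtain ⟨a6', a7, a8', a4'⟩ := hN5 N (((le_max_right _ _).trans (le_max_right _ _)).trans hN)
  obtain ⟨NT, hNT, hNTr⟩ : ∃ NT : ℕ, (∀ i, t i ≤ NT) ∧ (NT : ℝ) ≤ (N : ℝ) ^ η' := by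
    refine ⟨univ.sup t, fun i => Finset.le_sup (f := t) (mem_univ i), ?_⟩
    obtain ⟨i, -, hi⟩ := Finset.exists_mem_eq_sup (univ : Finset (Fin (2 ^ k)))
      ⟨⟨0, by positivity⟩, mem_univ _⟩ t
    rw [hi]
    exact hti i
  obtain ⟨a1, a8⟩ := a8' W NT hWN hNTr
  have hNN2 : N ≤ N ^ 2 := hNN
  have a5 : W * (NT + 1) + b + 3 ≤ N ^ 2 := by
    have : W * (NT + 1) = W * NT + W := by ring
    omega
  have hN3 : 3 ≤ N := by omega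
  have hNr : (3 : ℝ) ≤ N := by exact_mod_cast hN3
  have hN0 : (0 : ℝ) < N := by linarith
  have hN1r : (1 : ℝ) ≤ N := by linarith
  have hY3' : 3 ≤ N ^ 2 := by omega
  have a6 : Ab k ε₁ ^ 2 * (2 ^ (k + 1)) ^ cR * (2 * W) * (8 * 2 ^ k) *
      6 ^ (2 * (g * 2 ^ k)) / cV * Real.log N ^ (2 * (g * 2 ^ k)) ≤ (N : ℝ) ^ (κ / 2) := by
    have h1 : (W : ℝ) ≤ (N : ℝ) ^ (κ / 4) :=
      hWN.trans (Real.rpow_le_rpow_of_exponent_le hN1r (by linarith only [hη2, hκ]))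
    have h2 := a6aux κ (N : ℝ) _ _ (W : ℝ) hN1r (Nat.cast_nonneg W) a6' h1
    refine le_trans (le_of_eq ?_) h2
    clear * -
    ring
  have a4 : ((2 * A * W : ℕ) : ℝ) + 1 ≤ ((N ^ 2 : ℕ) : ℝ) ^ ε₁ :=
    a4aux A W N ε₁ η' g hN1r hη0 hη1 hWN hWr a4'
  have hY2' : 2 ≤ N ^ 2 := by omega
  -- the sieving limit
  have hzJ : z < 2 ^ 2 ^ J := by
    have : (z : ℝ) < 2 ^ 2 ^ J := hz1.trans_le hJ1
    exact_mod_cast this
  have hWN0 : (0 : ℝ) ≤ (W * NT) ^ g := by positivity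
  have hWz : W ≤ z := by
    have h2 : (W : ℝ) ≤ z := by linarith
    exact_mod_cast h2
  have hV := hVlow F hF W b J z t (fun p hp hpk => hWp p hp (by omega)) hzJ
  have hV0 : 0 < Vp F W b z t := lt_of_lt_of_le (by positivity) hV
  obtain ⟨hV2, hV3⟩ := num1 (N ^ 2) J (2 * (g * 2 ^ k)) ε₁ cV (Vp F W b z t) hY3' hε11 hcV hJ2 hV a3
  have hLY : ((N ^ 2 : ℕ) : ℝ) ^ ((1 - κ) / 2) ≤ L := by
    refine le_trans (le_of_eq ?_) hL1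
    push_cast
    rw [← Real.rpow_natCast, ← Real.rpow_mul hN0.le]
    congr 1
    push_cast
    ring
  obtain ⟨hεb1', hεb2⟩ := eb_aux ε₁ (κ / 16) C1 C2 b₀ hε hεb
  have hεb1 : 2 * ε₁ * (C1 * b₀) ≤ ((1 - κ) / 2 - 2 * R) / 2 := by linarith
  have hD := num2 (N ^ 2) J (2 * (g * 2 ^ k)) C1 b₀ ε₁ cV (Vp F W b z t) L ((1 - κ) / 2) (2 * R)
    hY3' hcV hJ2 hV2 hεb1 hLY a2
  have hU : ∀ (K : ℕ) (s : Pg (fv A B C) (N ^ 2) ε₁ pυ) i j,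
      ((s : ℕ) : ℤ) ∣ fv A B C ((W * (K + t i) + b : ℕ) : ℤ) →
      ((s : ℕ) : ℤ) ∣ fv A B C ((W * (K + t j) + b : ℕ) : ℤ) → i = j := by
    intro K s i j h1 h2
    obtain ⟨h3, h4, -⟩ := Pg_mem (fv A B C) (N ^ 2) ε₁ pυ hY2' s
    refine uniq hG W b hWpos hgW t ht NT hNT (s : ℕ) h3 ?_ K i j h1 h2
    have h5 : ((W * NT : ℕ) : ℝ) ^ g < (s : ℕ) := by
      push_cast
      have : (0 : ℝ) ≤ W := Nat.cast_nonneg W
      push_cast at a1 h4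
      linarith
    exact_mod_cast h5
  have hcnt := cnt_of C1 b₀ W J z (2 ^ k) b M L F (fv A B C) t (N ^ 2) hY2' ε₁ pυ (2 * R) hG.per
    hWpos hWz hz1
    (fun D a hD1 hD2 s hs => hC g (2 ^ k) b₀ W (hCl1.trans hb₀) hWpos
      (fun p hp hpk => hWp p hp (by omega)) F hF
      t b J z D a M L hzJ.le hD1 hD2 s hs) hU hD
  -- the weights
  obtain ⟨w, w1, w2, w3, w4, w5⟩ := HW (N ^ 2) hY2'
  have w6 := w5 (fun p => (rt (fv A B C) p : ℝ) / p) (fun p hp => by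
    unfold pr at hp
    rw [mem_filter] at hp
    have hpp := hp.2.1
    have hp0 : (0 : ℝ) < p := by exact_mod_cast hpp.pos
    refine ⟨by positivity, ?_⟩
    rw [div_le_one hp0]
    have : rt (fv A B C) p ≤ p := by
      unfold rt
      exact (card_filter_le _ _).trans (le_of_eq (card_range p))
    exact_mod_cast this) hM
  -- the presieve
  obtain ⟨cU, u1, u2, u3, u4, u5⟩ := hP g (2 ^ k) b₀ W (hCl2.trans hb₀)
    (fun p hp hpk => hWp p hp (by omega)) F hF t b J z hzJ.le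
  -- the remainders
  obtain ⟨B1, hB1⟩ : ∃ B1 : ℝ, B1 = ((W * L : ℕ) : ℝ) * (N : ℝ) ^ (-κ) + 1 := ⟨_, rfl⟩
  have hB10 : 0 ≤ B1 := by rw [hB1]; positivity
  have hB11 : 1 ≤ B1 := by
    rw [hB1]
    have : 0 ≤ ((W * L : ℕ) : ℝ) * (N : ℝ) ^ (-κ) := by positivity
    linarith
  have hbig : ∀ p ∈ pr (N ^ 2) ε₁ pυ, ¬ p ∣ 2 * A * W := by
    intro p hp hd
    obtain ⟨h1, h2, h3⟩ := pr_mem (N ^ 2) p ε₁ pυ hY2' hp
    have h4 : p ≤ 2 * A * W := Nat.le_of_dvd (by positivity) hd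
    have h5 : (p : ℝ) ≤ ((2 * A * W : ℕ) : ℝ) := by exact_mod_cast h4
    linarith
  have hRw : ∀ i, Rem k (qs (fv A B C) (N ^ 2) ε₁ pυ) (ls (fv A B C) (N ^ 2) ε₁ pυ) R i
      (fun T => w (T.map (Function.Embedding.subtype _))) (Ioc M (M + L))
      (th F W b t (PS W z) cU)
      (xi (fv A B C) W b t (fun s : Pg (fv A B C) (N ^ 2) ε₁ pυ => (s : ℕ)))
      (L * VV (PS W z) cU (fun p => (rhoT F W b t p : ℝ) / p))
      ((((2 ^ 2 ^ J) ^ (C2 * b₀) : ℕ) : ℝ) ^ 2 * ((N ^ 2 : ℕ) : ℝ) ^ (2 * R) * B1) := by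
    intro i
    apply rem_of F (fv A B C) hF.per hG.per k W b z M L (N ^ 2) t hY2' ε₁ pυ R hWpos hWz hz1 cU u1
      _ u2 hU i _ B1 hB10
    intro D c hD1
    apply b1_k A B C hA hna N W b M L (t i) hWpos ε₁ pυ (by omega) hbig w B1 _ D c hD1
    intro q r hq
    have hti : W * t i ≤ W * NT := Nat.mul_le_mul_left _ (hNT i)
    have hWM : W * (M + t i) = W * M + W * t i := by ring
    have h1 := hbil (W * (M + t i) + b) (W * L) (by omega) (by omega) (by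
      refine hL1.trans ?_
      have : L ≤ W * L := Nat.le_mul_of_pos_left _ hWpos
      exact_mod_cast this) (by
      have h2 : |B| = (B.natAbs : ℤ) := Int.abs_eq_natAbs B
      rw [h2]
      have h3 : W * L + B.natAbs ≤ W * (M + t i) + b := by omega
      exact_mod_cast h3) w w2 q r hq
    refine h1.trans ?_
    rw [hB1]
    linarith
  have hR0 : ∀ i, Rem k (qs (fv A B C) (N ^ 2) ε₁ pυ) (ls (fv A B C) (N ^ 2) ε₁ pυ) R i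
      (fun T => if T = ∅ then 1 else 0) (Ioc M (M + L))
      (th F W b t (PS W z) cU)
      (xi (fv A B C) W b t (fun s : Pg (fv A B C) (N ^ 2) ε₁ pυ => (s : ℕ)))
      (L * VV (PS W z) cU (fun p => (rhoT F W b t p : ℝ) / p))
      ((((2 ^ 2 ^ J) ^ (C2 * b₀) : ℕ) : ℝ) ^ 2 * ((N ^ 2 : ℕ) : ℝ) ^ (2 * R) * B1) := by
    intro i
    apply rem_of F (fv A B C) hF.per hG.per k W b z M L (N ^ 2) t hY2' ε₁ pυ R hWpos hWz hz1 cU u1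
      _ u2 hU i _ B1 hB10
    intro D c hD1
    rw [sum_eq_single ∅]
    · have h1 := (ap_count M L D c hD1).trans hB11
      refine le_trans (le_of_eq ?_) h1
      simp
    · intro T _ hT
      simp [hT]
    · intro h
      exact absurd (mem_univ _) h
  have hAA : (∏ s, (1 + 2 ^ k * mus (fv A B C) (N ^ 2) ε₁ pυ s)) ^ 2 ≤ Ab k ε₁ ^ 2 := by
    have h1 := AA_Ab hd hε (hεζ.trans hζυ) k
    have h0 : 0 ≤ ∏ s, (1 + 2 ^ k * mus (fv A B C) (N ^ 2) ε₁ pυ s) := by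
      apply prod_nonneg
      intro s _
      have := hd.m0 s
      positivity
    refine pow_le_pow_left₀ h0 (le_trans ?_ h1) 2
    unfold AA
    apply Finset.prod_le_prod
    · intro s _
      have := hd.m0 s
      positivity
    · intro s _
      have h2 := hd.m0 s
      rw [Fintype.card_fin]
      have h3 : (1 : ℝ) ≤ ((2 ^ k : ℕ) : ℝ) := by exact_mod_cast Nat.one_le_two_pow
      have h4 : ((2 ^ k : ℕ) : ℝ) = 2 ^ k := by push_cast; rfl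
      rw [← h4]
      have h5 : ((2 ^ k : ℕ) : ℝ) ≤ 8 * ((2 ^ k : ℕ) : ℝ) ^ 2 := by nlinarith
      have h6 := mul_le_mul_of_nonneg_right h5 h2
      linarith
  have hrs := rem_size N W L cR k (2 * (g * 2 ^ k)) J C2 b₀ κ R ε₁ cV (Vp F W b z t) (Ab k ε₁) hN3
    hWpos hκ hκ1 hR.le (by linarith) hcV hAb hJ2 hεb2 hV2 hL1 a6
  have hBX : (∏ s, (1 + 2 ^ k * mus (fv A B C) (N ^ 2) ε₁ pυ s)) ^ 2 *
      (((2 ^ (k + 1)) ^ cR * ((N ^ 2 : ℕ) : ℝ) ^ (4 * R)) *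
      ((((2 ^ 2 ^ J) ^ (C2 * b₀) : ℕ) : ℝ) ^ 2 * ((N ^ 2 : ℕ) : ℝ) ^ (2 * R) * B1)) ≤
      L * Vp F W b z t / (8 * 2 ^ k) := by
    refine le_trans (mul_le_mul_of_nonneg_right hAA (by positivity)) ?_
    rw [hB1]
    exact hrs
  have hE : (0 : ℝ) ≤ 2 * (1 / 2 : ℝ) ^ b₀ := by positivity
  refine ⟨Pool.Agent.H543.MQ.U.core1q F (fv A B C) g hF hG hGF D hGs m k W c' NT (N ^ 2) b M L z (49994 / 100000 + 416 / 10000)
    pζ pυ pa pb R f0 ε₁ CC (2 * (1 / 2 : ℝ) ^ b₀) (by norm_num) (by norm_num) (hεζ.trans hζυ) hpb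
    hpab hCC0 hR hRζ hf0 hWpos hk hε hEe hE hbE hc' t hNT a5 ?_ hbW hz2 w
    (fun T => by rw [hCC]; exact w1 T) w3 w4 w6 hd hU hV0 hcnt (th F W b t (PS W z) cU)
    (L * VV (PS W z) cU (fun p => (rhoT F W b t p : ℝ) / p))
    ((((2 ^ 2 ^ J) ^ (C2 * b₀) : ℕ) : ℝ) ^ 2 * ((N ^ 2 : ℕ) : ℝ) ^ (2 * R) * B1)
    ((2 ^ (k + 1)) ^ cR * ((N ^ 2 : ℕ) : ℝ) ^ (4 * R)) u3 ?_ ?_ (by positivity)
    (fun U hU' => bq_bd (fv A B C) (N ^ 2) hY2' ε₁ pυ R hε k cR hcR U hU') hRw hR0 hBX, hV0, hV3⟩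
  · have h1 : M ≤ W * M := Nat.le_mul_of_pos_left _ hWpos
    have h2 : L ≤ W * L := Nat.le_mul_of_pos_left _ hWpos
    have h3 : 5 * N ≤ N ^ 2 := by
      rw [sq]
      exact Nat.mul_le_mul_right _ a7
    omega
  · exact mul_le_mul_of_nonneg_left u4 (Nat.cast_nonneg _)
  · have h1 : (1 + (1 / 2 : ℝ) ^ b₀) * Vp F W b z t ≤ (1 + 2 * (1 / 2 : ℝ) ^ b₀) * Vp F W b z t := by
      apply mul_le_mul_of_nonneg_right _ hV0.le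
      have : (0 : ℝ) ≤ (1 / 2 : ℝ) ^ b₀ := by positivity
      linarith
    calc (L : ℝ) * VV (PS W z) cU (fun p => (rhoT F W b t p : ℝ) / p) ≤
        L * ((1 + 2 * (1 / 2 : ℝ) ^ b₀) * Vp F W b z t) :=
          mul_le_mul_of_nonneg_left (u5.trans h1) (Nat.cast_nonneg _)
      _ = _ := by ring

end Pool.Agent.H543.MQ.V
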