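import Pool.Agent.H543.MQ.V.V1
import Pool.Agent.H543.MQ.U.U3

/-!
# Families of polynomials and moduli up to a power: the good points
-/

set_option autoImplicit false
set_option linter.unusedSectionVars false

namespace Pool.Agent.H543.MQ.V

open Finset Filter Polynomial
open Pool.Agent.R498.MT hiding Vp_low pt_up exb' c1z
open Pool.Agent.H543.MQ hiding pre core1q core2
open Pool.Agent.H543.MQ.U hiding core2
open Pool.Agent.Y677.RSZ (rt Sys rhoT per_mod ev_log V eng_all)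
open Pool.Agent.TH423.SH (PS)
open Pool.Agent.W23.DC
open Pool.Agent.Y882
open Pool.Agent.Y882.PX hiding gd
open Pool.Agent.Y882.KW
open Pool.Agent.Y346.PA (S_KL)
open Pool.Agent.H543.DD
open Pool.Agent.H543.DP (fv NV dt NS cF)

/-- the numerical conditions -/
theorem nums3 (q0 N₀ a CG : ℕ) (κ η c1 c2 : ℝ) (hκ : 0 < κ) (hκ1 : κ ≤ 1 / 100) (hη : 0 < η)
    (hη1 : η ≤ κ / 16) (hηζ : η ≤ pζ) (hc1 : 0 ≤ c1) :
    ∀ᶠ N : ℕ in atTop, (5 ≤ N ∧ N₀ ≤ N ∧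
      (q0 : ℝ) + 2 ≤ ((N ^ 2 : ℕ) : ℝ) ^ pζ ∧
      c2 * Real.log ((N ^ 2 : ℕ) : ℝ) ^ a ≤ ((N ^ 2 : ℕ) : ℝ) ^ (99 / 200 - 9 / 20 : ℝ) ∧
      (16 * CG + 1 : ℝ) < ((N ^ 2 : ℕ) : ℝ) ^ (1 / 50 : ℝ) ∧
      pb * Real.log ((16 * CG + 1 : ℕ) : ℝ) ≤ (3 * pa - pb - 1) * Real.log ((N ^ 2 : ℕ) : ℝ)) ∧
      ∀ W : ℕ, 2 ≤ W → (W : ℝ) ≤ (N : ℝ) ^ η →
      c1 * W * Real.log ((N ^ 2 : ℕ) : ℝ) ^ a ≤ ((N ^ 2 : ℕ) : ℝ) ^ pζ ∧
      ∀ X : ℕ, (N : ℝ) ^ (1 - κ / 2) ≤ X → 2 * X ≤ N →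
      ∃ L : ℕ, W * (L + 2) ≤ X ∧ (N : ℝ) ^ (1 - κ) ≤ L ∧
        2 * (W * L) ≤ N ∧ (N : ℝ) ^ (1 / 2 : ℝ) ≤ L ∧ X ≤ 4 * (W * L) := by
  have hT := tendsto_natCast_atTop_atTop (R := ℝ)
  have hT2 : Tendsto (fun N : ℕ => N ^ 2) atTop atTop := tendsto_pow_atTop (by norm_num)
  have hζ : 0 < pζ := by unfold pζ; norm_num
  have v1 : ∀ᶠ N : ℕ in atTop, (q0 : ℝ) + 2 ≤ ((N ^ 2 : ℕ) : ℝ) ^ pζ :=
    (((tendsto_rpow_atTop hζ).comp hT).comp hT2).eventually_ge_atTop _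
  have v2 : ∀ᶠ N : ℕ in atTop, (16 * CG + 1 : ℝ) < ((N ^ 2 : ℕ) : ℝ) ^ (1 / 50 : ℝ) :=
    (((tendsto_rpow_atTop (by norm_num)).comp hT).comp hT2).eventually_gt_atTop _
  have v3 := hT2.eventually (ev_log a c1 (pζ / 2) (by positivity))
  have v4 := hT2.eventually (ev_log a c2 (99 / 200 - 9 / 20) (by norm_num))
  have v5 : ∀ᶠ N : ℕ in atTop, (6 : ℝ) ≤ (N : ℝ) ^ (κ / 4) :=
    ((tendsto_rpow_atTop (by positivity)).comp hT).eventually_ge_atTop _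
  have v6 : ∀ᶠ N : ℕ in atTop, (3 : ℝ) ≤ (N : ℝ) ^ (1 - κ) :=
    ((tendsto_rpow_atTop (by linarith)).comp hT).eventually_ge_atTop _
  have v7 : ∀ᶠ N : ℕ in atTop, pb * Real.log ((16 * CG + 1 : ℕ) : ℝ) / (3 * pa - pb - 1) ≤
      Real.log ((N ^ 2 : ℕ) : ℝ) :=
    ((Real.tendsto_log_atTop.comp hT).comp hT2).eventually_ge_atTop _
  filter_upwards [eventually_ge_atTop 5, eventually_ge_atTop N₀, v1, v2, v3, v4, v5,
    v6, v7] with N e1 e2 w1 w2 w3 w4 w5 w6 w7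
  have hNr : (5 : ℝ) ≤ N := by exact_mod_cast e1
  have hN0 : (0 : ℝ) < N := by linarith
  have hN1 : (1 : ℝ) ≤ N := by linarith
  have hY1 : (1 : ℝ) ≤ ((N ^ 2 : ℕ) : ℝ) := by
    have : 1 ≤ N ^ 2 := Nat.one_le_pow _ _ (by omega)
    exact_mod_cast this
  refine ⟨⟨e1, e2, w1, w4, w2, ?_⟩, ?_⟩
  · rw [div_le_iff₀ (by unfold pa pb; norm_num)] at w7
    linarith
  · intro W hW hWN
    have hWr : (2 : ℝ) ≤ W := by exact_mod_cast hW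
    constructor
    · have h1 : (W : ℝ) ≤ ((N ^ 2 : ℕ) : ℝ) ^ (pζ / 2) := by
        refine hWN.trans ?_
        have e : ((N ^ 2 : ℕ) : ℝ) ^ (pζ / 2) = (N : ℝ) ^ pζ := by
          push_cast
          rw [← Real.rpow_natCast, ← Real.rpow_mul hN0.le]
          congr 1
          push_cast
          ring
        rw [e]
        exact Real.rpow_le_rpow_of_exponent_le hN1 hηζ
      have hl0 : 0 ≤ Real.log ((N ^ 2 : ℕ) : ℝ) := Real.log_nonneg hY1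
      calc c1 * W * Real.log ((N ^ 2 : ℕ) : ℝ) ^ a = (c1 * Real.log ((N ^ 2 : ℕ) : ℝ) ^ a) * W := by
            ring
        _ ≤ ((N ^ 2 : ℕ) : ℝ) ^ (pζ / 2) * ((N ^ 2 : ℕ) : ℝ) ^ (pζ / 2) :=
            mul_le_mul w3 h1 (by linarith) (by positivity)
        _ = _ := by
            rw [← Real.rpow_add (by linarith)]
            congr 1
            ring
    intro Q hQ1 hQN'
    have hsplit : (N : ℝ) ^ (1 - κ / 2) = (N : ℝ) ^ (1 - κ) * ((N : ℝ) ^ (κ / 4) * (N : ℝ) ^ (κ / 4)) := by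
      rw [← Real.rpow_add hN0, ← Real.rpow_add hN0]
      congr 1
      ring
    have hT1 : (3 : ℝ) ≤ (N : ℝ) ^ (1 - κ) := w6
    have hW6 : (6 * W : ℝ) ≤ (N : ℝ) ^ (κ / 4) * (N : ℝ) ^ (κ / 4) := by
      have h1 : (W : ℝ) ≤ (N : ℝ) ^ (κ / 4) :=
        hWN.trans (Real.rpow_le_rpow_of_exponent_le hN1 (by linarith))
      exact mul_le_mul w5 h1 (by positivity) (by positivity)
    have hQ3 : (6 * W : ℝ) * (N : ℝ) ^ (1 - κ) ≤ (N : ℝ) ^ (1 - κ / 2) := by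
      rw [hsplit, mul_comm]
      exact mul_le_mul_of_nonneg_left hW6 (by positivity)
    have hQW : (Q : ℝ) < W * ((Q / W : ℕ) + 1) := by
      have h1 : Q < W * (Q / W + 1) := Nat.lt_mul_div_succ Q (show 0 < W by omega)
      exact_mod_cast h1
    have hW1 : (W : ℝ) * 3 ≤ W * (N : ℝ) ^ (1 - κ) := mul_le_mul_of_nonneg_left hT1 (by linarith)
    have hQW1 : 2 ≤ Q / W := by
      rw [Nat.le_div_iff_mul_le (by omega)]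
      have h1 : (2 * W : ℝ) ≤ Q := by nlinarith
      exact_mod_cast h1
    obtain ⟨L, hL⟩ : ∃ L : ℕ, L + 2 = Q / W := ⟨Q / W - 2, by omega⟩
    have hLr : ((Q / W : ℕ) : ℝ) = L + 2 := by rw [← hL]; push_cast; rfl
    have hL1 : (N : ℝ) ^ (1 - κ) ≤ L := by
      rw [hLr] at hQW
      have h1 : (W : ℝ) * (6 * (N : ℝ) ^ (1 - κ)) < W * (L + 2 + 1) := by nlinarith
      have h3 := lt_of_mul_lt_mul_left h1 (by linarith)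
      linarith
    have hWLQ : W * (L + 2) ≤ Q := by
      rw [hL]
      exact Nat.mul_div_le Q W
    have hL3 : 3 ≤ L := by
      have : (3 : ℝ) ≤ L := hT1.trans hL1
      exact_mod_cast this
    refine ⟨L, hWLQ, hL1, ?_, ?_, ?_⟩
    · have : W * L ≤ W * (L + 2) := Nat.mul_le_mul_left _ (by omega)
      omega
    · refine le_trans ?_ hL1
      exact Real.rpow_le_rpow_of_exponent_le hN1 (by linarith)
    · have h1 : Q < W * (Q / W + 1) := Nat.lt_mul_div_succ Q (show 0 < W by omega)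
      rw [← hL] at h1
      have h2 : W * (L + 2 + 1) ≤ W * (4 * L) := Nat.mul_le_mul_left _ (by omega)
      have h3 : W * (4 * L) = 4 * (W * L) := by ring
      omega

open Classical in
theorem mid (A : ℕ) (B C : ℤ) (hA : 1 ≤ A) (hna : ¬ IsSquare (-(dt A B C)))
    (CG : ℕ) (hGs : ∀ n : ℕ, fv A B C (n : ℤ) ≠ 0 ∧ (fv A B C (n : ℤ)).natAbs ≤ CG * (n + 1) ^ 2) :
    ∃ κ : ℝ, 0 < κ ∧ κ ≤ 1 / 100 ∧ ∀ g : ℕ, 1 ≤ g → Sys g (fv A B C) →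
    ∃ Cc : ℝ, 0 < Cc ∧ ∀ m : ℕ,
    ∃ (k W₀ : ℕ) (ε₁ c η : ℝ), ((W₀ * 2 ^ k : ℕ) : ℝ) ≤ Real.exp (Real.exp (Cc * (m + 1))) ∧
      2 ≤ W₀ ∧ Squarefree W₀ ∧
      (∀ p : ℕ, p.Prime → p ≤ g * 2 ^ k + 1 → p ∣ W₀) ∧
      0 < ε₁ ∧ ε₁ ≤ pζ ∧ 0 < c ∧ 0 < η ∧ η ≤ ε₁ ∧ η ≤ κ / 16 ∧
      ∀ᶠ N : ℕ in atTop, ∀ W : ℕ, 0 < W → W₀ ∣ W → (W : ℝ) ≤ (N : ℝ) ^ η →
        ∀ (t : Fin (2 ^ k) → ℕ), Function.Injective t →
        (∀ i, (t i : ℝ) ≤ (N : ℝ) ^ η) →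
        ∀ (F : ℤ → ℤ), Sys0 g F →
        (∀ p : ℕ, p.Prime → ∀ n : ℤ, (p : ℤ) ∣ fv A B C n → (p : ℤ) ∣ F n) →
        ∀ b : ℕ, b < W → (∀ p : ℕ, p.Prime → p ∣ W → ¬ (p : ℤ) ∣ F b) →
        ∀ r : ℕ, r < W → ∀ X : ℕ, (N : ℝ) ^ (1 - κ / 2) ≤ X → 2 * X ≤ N →
        ∃ (L z M : ℕ) (Hs : Finset (Fin (2 ^ k))) (A' : Finset ℕ), Hs.card = m ∧
          c * (L * Vp F W b z t) ≤ A'.card ∧
          1 ≤ Real.log ((N ^ 2 : ℕ) : ℝ) ^ (2 * (g * 2 ^ k) + 1) * Vp F W b z t ∧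
          0 < Vp F W b z t ∧
          W * (L + 2) ≤ X ∧ X ≤ 4 * (W * L) ∧ N + r < W * M ∧ W * M ≤ N + r + W ∧
          ∀ K ∈ A', K ∈ Ioc M (M + L) ∧
            ∀ i ∈ Hs, Gf A B C F N ε₁ (W * (K + t i) + b) := by
  classical
  have hΔ : ¬ IsSquare (B ^ 2 - 4 * (A : ℤ) * C) := by
    have e : B ^ 2 - 4 * (A : ℤ) * C = -(dt A B C) := by unfold dt; ring
    rw [e]
    exact hna
  have hA0 : (A : ℤ) ≠ 0 := by exact_mod_cast (by omega : A ≠ 0)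
  have hGs' : ∀ n : ℕ, fv A B C (n : ℤ) ≠ 0 ∧ (fv A B C (n : ℤ)).natAbs ≤ (n + 2) ^ (CG + 2) := by
    intro n
    refine ⟨(hGs n).1, (hGs n).2.trans ?_⟩
    rw [pow_add]
    apply Nat.mul_le_mul
    · calc CG ≤ 2 ^ CG := Nat.lt_two_pow_self.le
        _ ≤ (n + 2) ^ CG := Nat.pow_le_pow_left (by omega) _
    · exact Nat.pow_le_pow_left (by omega) _
  have hMer : ∀ ε₁ υ η : ℝ, 0 < ε₁ → υ ≤ 1 → 0 < η → ∃ Y0 : ℕ, ∀ Y : ℕ, Y0 ≤ Y →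
      Mer (pr Y ε₁ υ) (tt Y) (fun p => (rt (fv A B C) p : ℝ) / p) ε₁ υ η := by
    intro ε₁ υ η h1 h2 h3
    rw [← fv_QG]
    exact mer_QG A B C hA0 hΔ ε₁ υ η h1 h2 h3
  obtain ⟨KK, q0, hSq⟩ : ∃ KK q0 : ℕ, ∀ q : ℕ, q.Prime → q0 ≤ q → ∀ N H : ℕ,
      ((((Icc 1 H).filter (fun j : ℕ => ((q ^ 2 : ℕ) : ℤ) ∣ fv A B C ((N + j : ℕ) : ℤ))).card : ℕ)
        : ℝ) ≤ KK * (H * (1 / (q : ℝ) ^ 2) + 1) := by
    refine ⟨2, (A : ℤ).natAbs + (B ^ 2 - 4 * (A : ℤ) * C).natAbs + 3, ?_⟩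
    intro q hq hqa N H
    rw [← fv_QG]
    exact sq_QG A B C hA0 hΔ q hq (by omega) (by omega) N H
  obtain ⟨κ, hκ, hκ1, hcore⟩ := core2 Pool.Agent.Y346.PA.kl A B C hA hna (CG + 2) hGs' hMer
  refine ⟨κ, hκ, hκ1, ?_⟩
  intro g hg1 hG
  obtain ⟨Cc, hCc, hcore⟩ := hcore g hG
  refine ⟨Cc, hCc, ?_⟩
  intro m
  obtain ⟨k, W₀, hKb, hW₀0, hW₀sq, hW₀p, hgW₀, ε₁, c, η, hε, hεζ, hc, hη0, hη1, hη2, N₀, hcore⟩ :=
    hcore m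
  have hW₀2 : 2 ≤ W₀ := by
    have h1 : 2 ∣ W₀ := hW₀p 2 Nat.prime_two (by
      have : 1 ≤ g * 2 ^ k := Nat.mul_pos hg1 (by positivity)
      omega)
    exact Nat.le_of_dvd hW₀0 h1
  have hηε : η ≤ ε₁ := eta_le g ε₁ η hη0 hη1
  obtain ⟨aL, haL⟩ : ∃ aL : ℕ, aL = 2 * (g * 2 ^ k) + 1 := ⟨_, rfl⟩
  refine ⟨k, W₀, ε₁, c / (2 * 2 ^ 2 ^ k), η, hKb, hW₀2, hW₀sq, hW₀p, hε, hεζ, by positivity, hη0, hηε,
    hη2, ?_⟩
  have hnums := nums3 q0 N₀ aL CG κ η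
    (8 * (2 ^ k * KK) / c) (4 * (2 ^ k * KK) / c) hκ hκ1 hη0 hη2 (hηε.trans hεζ) (by positivity)
  have hnt := nt_size2 g (4 + 4) ε₁ η hε (hεζ.trans (by unfold pζ; norm_num)) hη0 hη1
  filter_upwards [hnums, hnt] with N hN hnt W hW0 hWdvd hWN t ht hti F hF hGF b hbW hb r hrW X hX1 hX2
  have hW2 : 2 ≤ W := hW₀2.trans (Nat.le_of_dvd hW0 hWdvd)
  obtain ⟨NT, hNT, hNTr⟩ : ∃ NT : ℕ, (∀ i, t i ≤ NT) ∧ (NT : ℝ) ≤ (N : ℝ) ^ η := by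
    refine ⟨univ.sup t, fun i => Finset.le_sup (f := t) (mem_univ i), ?_⟩
    obtain ⟨i, -, hi⟩ := Finset.exists_mem_eq_sup (univ : Finset (Fin (2 ^ k)))
      ⟨⟨0, by positivity⟩, mem_univ _⟩ t
    rw [hi]
    exact hti i
  obtain ⟨-, n8⟩ := hnt W NT hWN hNTr
  obtain ⟨⟨n1, n2, n5, n10, n11, n12⟩, hNX⟩ := hN
  obtain ⟨n9, hNX⟩ := hNX W hW2 hWN
  obtain ⟨L, l1, l2, l4, l6, l7⟩ := hNX X hX1 hX2
  have hNr : (5 : ℝ) ≤ N := by exact_mod_cast n1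
  have hN0 : (0 : ℝ) < N := by linarith
  have hN1 : (1 : ℝ) ≤ N := by linarith
  have hYp : ∀ x : ℝ, ((N ^ 2 : ℕ) : ℝ) ^ x = (N : ℝ) ^ (2 * x) := by
    intro x
    push_cast
    rw [← Real.rpow_natCast, ← Real.rpow_mul hN0.le]
    norm_num
  have hYN : N ≤ N ^ 2 := Nat.le_self_pow (by norm_num) N
  obtain ⟨M, hM⟩ : ∃ M : ℕ, M = (N + r) / W + 1 := ⟨_, rfl⟩
  have hM1 : N + r < W * M := by
    rw [hM]
    exact Nat.lt_mul_div_succ (N + r) hW0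
  have hM2 : W * M ≤ N + r + W := by
    rw [hM, mul_add, mul_one]
    have := Nat.mul_div_le (N + r) W
    omega
  obtain ⟨z, hz⟩ : ∃ z : ℕ, z + 1 = ⌈((N ^ 2 : ℕ) : ℝ) ^ ε₁⌉₊ := by
    have : 1 ≤ ⌈((N ^ 2 : ℕ) : ℝ) ^ ε₁⌉₊ := Nat.ceil_pos.2 (by positivity)
    exact ⟨⌈((N ^ 2 : ℕ) : ℝ) ^ ε₁⌉₊ - 1, by omega⟩
  have hz1 : (z : ℝ) < ((N ^ 2 : ℕ) : ℝ) ^ ε₁ := by
    have h1 := Nat.ceil_lt_add_one (show 0 ≤ ((N ^ 2 : ℕ) : ℝ) ^ ε₁ by positivity)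
    rw [← hz] at h1
    push_cast at h1 ⊢
    linarith
  have hz2 : ((N ^ 2 : ℕ) : ℝ) ^ ε₁ ≤ z + 1 := by
    have h1 := Nat.le_ceil (((N ^ 2 : ℕ) : ℝ) ^ ε₁)
    rw [← hz] at h1
    push_cast at h1 ⊢
    exact h1
  have hW10 : 5 * W ≤ N := by
    have h := (hnt W 1 hWN (by rw [Nat.cast_one]; exact Real.one_le_rpow hN1 hη0.le)).2
    omega
  obtain ⟨hgd, hV0, hV1⟩ := hcore N n2 W hW0 hWdvd hWN t ht hti F hF hGF b hbW hb M L z (by omega)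
    (by omega) l2 l4 hz1 hz2
  rw [← haL] at hV1
  have hLθ : ((N ^ 2 : ℕ) : ℝ) ^ (99 / 200 : ℝ) ≤ L := by
    refine le_trans ?_ l2
    rw [hYp]
    exact Real.rpow_le_rpow_of_exponent_le hN1 (by linarith)
  obtain ⟨Hs, A', hHs, hA1, hA2⟩ := many2 F (fv A B C) KK q0 W b M L (N ^ 2) k m
    aL ε₁ pζ pυ (9 / 20) (99 / 200) pa pb c
    (Vp F W b z t) hSq hW0 (by omega) n5 t hc hV0 hV1 hgd hLθ (by
      refine le_trans (le_of_eq ?_) n9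
      ring) n10
  refine ⟨L, z, M, Hs, A', hHs, hA1, by rw [← haL]; exact hV1, hV0, l1, l7, hM1, hM2, ?_⟩
  intro K hK
  obtain ⟨hK1', hK2', hK3'⟩ := hA2 K hK
  refine ⟨hK1', ?_⟩
  intro i hi
  obtain ⟨hw, hsq⟩ := hK3' i hi
  have hx : W * (K + t i) + b + 1 ≤ 4 * N := by
    have h1 : W * t i ≤ W * NT := Nat.mul_le_mul_left _ (hNT i)
    have h2 : W * (K + t i) = W * K + W * t i := by ring
    rw [mem_Ioc] at hK1'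
    have h3 : W * K ≤ W * (M + L) := Nat.mul_le_mul_left _ hK1'.2
    have h5 : W * (M + L) = W * M + W * L := by ring
    have h6 : W * (L + 2) = W * L + 2 * W := by ring
    omega
  have hsize : (fv A B C ((W * (K + t i) + b : ℕ) : ℤ)).natAbs ≤ (16 * CG + 1) * N ^ 2 := by
    have h1 := (hGs (W * (K + t i) + b)).2
    have h4 : (W * (K + t i) + b + 1) ^ 2 ≤ (4 * N) ^ 2 := Nat.pow_le_pow_left hx 2
    calc (fv A B C ((W * (K + t i) + b : ℕ) : ℤ)).natAbs ≤ CG * (4 * N) ^ 2 :=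
          h1.trans (Nat.mul_le_mul_left _ h4)
      _ = (16 * CG) * N ^ 2 := by ring
      _ ≤ _ := Nat.mul_le_mul_right _ (by omega)
  have htwo := two_of (N ^ 2) (fv A B C ((W * (K + t i) + b : ℕ) : ℤ)).natAbs (16 * CG + 1)
    (by omega) (by omega) hsize (Int.natAbs_ne_zero.2 (hGs _).1) n12
    (by push_cast at n11 ⊢; exact n11) hw (fun q hq hqd => hsq q hq (Int.natCast_dvd.2 hqd))
  refine ⟨htwo.1, fun p hp hpd => ?_, fun p hp hpd => ?_⟩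
  · have h1 := htwo.2 p hp (Int.natCast_dvd.1 hpd)
    rw [hYp] at h1
    refine le_trans (le_of_eq ?_) h1
    congr 1
    unfold pζ
    norm_num
  · by_contra hcon
    push Not at hcon
    refine hK2' p hp ?_ i hpd
    rw [hYp]
    refine hcon.trans_le ?_
    exact Real.rpow_le_rpow_of_exponent_le hN1 (by linarith)

end Pool.Agent.H543.MQ.V
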