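import Pool.Agent.H543.MQ.V.V2
import Pool.Agent.H543.MQ.U.U6

/-!
# Families of polynomials and moduli up to a power: the theorem
-/

set_option autoImplicit false
set_option linter.unusedSectionVars false

namespace Pool.Agent.H543.MQ.V

open Finset Filter Polynomial
open Pool.Agent.R498.MT hiding Vp_low pt_up exb' c1z PP_rt PP_sys PP_V
open Pool.Agent.H543.MQ hiding pre core1q core2
open Pool.Agent.H543.MQ.U hiding core2 mid
open Pool.Agent.Y677.RSZ (rt Sys rhoT per_mod ev_log V eng_all)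
open Pool.Agent.H543.DD
open Pool.Agent.H543.DP (fv NV dt NS cF)

/-- a class in which nothing has a common factor with the modulus -/
theorem exbq {g : ℕ} {F : ℤ → ℤ} (hF : Sys0 g F) (W₀ q a : ℕ) (hW₀ : 0 < W₀)
    (hsq : Squarefree W₀) (hq : 0 < q) (ha : ∀ p : ℕ, p.Prime → p ∣ q → ¬ (p : ℤ) ∣ F a) :
    ∃ b < W₀ * q, b % q = a % q ∧ ∀ p : ℕ, p.Prime → p ∣ W₀ * q → ¬ (p : ℤ) ∣ F b := by
  obtain ⟨W₁, hW₁⟩ : W₀.gcd q ∣ W₀ := Nat.gcd_dvd_left _ _
  have hg0 : 0 < W₀.gcd q := Nat.gcd_pos_of_pos_left _ hW₀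
  have hW₁0 : 0 < W₁ := by
    rcases Nat.eq_zero_or_pos W₁ with h | h
    · rw [h, mul_zero] at hW₁
      omega
    · exact h
  have hW₁d : W₁ ∣ W₀ := ⟨W₀.gcd q, by rw [mul_comm]; exact hW₁⟩
  have hcop : Nat.Coprime q W₁ := by
    apply Nat.Coprime.symm
    apply Nat.coprime_of_dvd
    intro p hp h1 h2
    have h3 : p ∣ W₀.gcd q := Nat.dvd_gcd (h1.trans hW₁d) h2
    have h4 : p * p ∣ W₀ := by
      rw [hW₁]
      exact Nat.mul_dvd_mul h3 h1
    have h5 := hsq p h4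
    exact hp.one_lt.ne' (Nat.isUnit_iff.1 h5)
  obtain ⟨b₁, hb₁, hb₁F⟩ := Pool.Agent.H543.MQ.U.exb' hF W₁ hW₁0 (hsq.squarefree_of_dvd hW₁d)
  obtain ⟨b₂, hb₂q, hb₂W⟩ := Nat.chineseRemainder hcop a b₁
  have hWq : 0 < W₀ * q := Nat.mul_pos hW₀ hq
  have hmod : ∀ d : ℕ, d ∣ W₀ * q → b₂ % (W₀ * q) ≡ b₂ [MOD d] := by
    intro d hd
    exact (Nat.mod_modEq b₂ (W₀ * q)).of_dvd hd
  refine ⟨b₂ % (W₀ * q), Nat.mod_lt _ hWq, ?_, ?_⟩
  · exact (hmod q (dvd_mul_left _ _)).trans hb₂q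
  · intro p hp hpd hpF
    by_cases hpq : p ∣ q
    · apply ha p hp hpq
      refine (per_mod hF.per hp (b₂ % (W₀ * q)) a ?_).1 hpF
      exact (hmod p hpd).trans (hb₂q.of_dvd hpq)
    · have hpW₀ : p ∣ W₀ := (hp.dvd_mul.1 hpd).resolve_right hpq
      have hpW₁ : p ∣ W₁ := by
        rw [hW₁] at hpW₀
        rcases hp.dvd_mul.1 hpW₀ with h | h
        · exact absurd (h.trans (Nat.gcd_dvd_right _ _)) hpq
        · exact h
      apply hb₁F p hp hpW₁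
      refine (per_mod hF.per hp (b₂ % (W₀ * q)) b₁ ?_).1 hpF
      exact (hmod p hpd).trans (hb₂W.of_dvd hpW₁)

open Classical in
/-- the pattern and the number of its occurrences in a class -/
theorem wrapq (A : ℕ) (B C : ℤ) (F : ℤ → ℤ) (N W₀ q a b r₀ k m L z M X aL : ℕ) (ε₁ δ c : ℝ)
    (t : Fin (2 ^ k) → ℕ) (Hs : Finset (Fin (2 ^ k))) (A' S : Finset ℕ)
    (hW₀ : 2 ≤ W₀) (hq : 0 < q) (hbW : b < W₀ * q) (hba : b % q = a % q) (hrW : r₀ < W₀)
    (ht : Function.Injective t)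
    (hmem : ∀ i, W₀ * t i + r₀ ∈ S) (hc : 0 < c) (hN5 : 5 ≤ N) (hδ : δ ≤ ε₁)
    (hlog : 2 ^ aL * (4 * W₀) / c ≤ Real.log N)
    (h1 : Hs.card = m) (h2 : c * (L * Vp F (W₀ * q) b z t) ≤ A'.card)
    (h3 : 1 ≤ Real.log ((N ^ 2 : ℕ) : ℝ) ^ aL * Vp F (W₀ * q) b z t)
    (h4 : 0 < Vp F (W₀ * q) b z t)
    (h5 : (W₀ * q) * (L + 2) ≤ X) (h6 : X ≤ 4 * ((W₀ * q) * L)) (h7 : N + q * r₀ < (W₀ * q) * M)
    (h8 : (W₀ * q) * M ≤ N + q * r₀ + W₀ * q)
    (h9 : ∀ K ∈ A', K ∈ Ioc M (M + L) ∧ ∀ i ∈ Hs, Gf A B C F N ε₁ ((W₀ * q) * (K + t i) + b)) :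
    (Hs.image (fun i => W₀ * t i + r₀)) ⊆ S ∧ (Hs.image (fun i => W₀ * t i + r₀)).card = m ∧
      X / (q * Real.log N ^ (aL + 1)) ≤ (((Ioc N (N + X)).filter (fun n : ℕ => n % q = a % q ∧
        ∀ h ∈ Hs.image (fun i => W₀ * t i + r₀), Gf A B C F N δ (n + q * h))).card : ℝ) := by
  have hW₀0 : 0 < W₀ := by omega
  have hNr : (5 : ℝ) ≤ N := by exact_mod_cast hN5
  have hlN : 0 < Real.log N := Real.log_pos (by linarith)
  have hqr : (0 : ℝ) < q := by exact_mod_cast hq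
  obtain ⟨W, hW⟩ : ∃ W : ℕ, W = W₀ * q := ⟨_, rfl⟩
  have hrq : q * r₀ < W := by
    rw [hW, mul_comm W₀ q]
    exact Nat.mul_lt_mul_of_pos_left hrW hq
  rw [← hW] at hbW h2 h3 h4 h5 h6 h7 h8 h9
  have hW0 : 0 < W := by omega
  refine ⟨?_, ?_, ?_⟩
  · intro h hh
    rw [mem_image] at hh
    obtain ⟨i, _, rfl⟩ := hh
    exact hmem i
  · rw [card_image_of_injective _ (fun i j hij => by
      have h1 : W₀ * t i + r₀ = W₀ * t j + r₀ := hij
      have h2 : W₀ * t i = W₀ * t j := by omega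
      exact ht (Nat.eq_of_mul_eq_mul_left hW₀0 h2))]
    exact h1
  · have hWL2 : W * (L + 2) = W * L + W + W := by ring
    obtain ⟨r, hr⟩ : ∃ r : ℕ, r = q * r₀ := ⟨_, rfl⟩
    rw [← hr] at h7 h8 hrq
    have hbds : ∀ K ∈ Ioc M (M + L), N + r < W * K + b ∧ W * K + b ≤ N + r + W + W * L + b := by
      intro K hK
      rw [mem_Ioc] at hK
      have h2 : W * (M + 1) ≤ W * K := Nat.mul_le_mul_left _ (by omega)
      have h3 : W * K ≤ W * (M + L) := Nat.mul_le_mul_left _ hK.2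
      have h5 : W * (M + L) = W * M + W * L := by ring
      have h6 : W * (M + 1) = W * M + W := by ring
      refine ⟨by omega, by omega⟩
    have e1 : A'.card ≤ ((Ioc N (N + X)).filter (fun n : ℕ => n % q = a % q ∧
        ∀ h ∈ Hs.image (fun i => W₀ * t i + r₀), Gf A B C F N δ (n + q * h))).card := by
      apply card_le_card_of_injOn (fun K => W * K + b - r)
      · intro K hK
        have hK' := hbds K (h9 K hK).1
        rw [mem_coe, mem_filter, mem_Ioc]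
        refine ⟨⟨?_, ?_⟩, ?_, ?_⟩
        · show N < W * K + b - r
          omega
        · show W * K + b - r ≤ N + X
          omega
        · show (W * K + b - r) % q = a % q
          have e2 : W * K + b - r + q * r₀ = q * (W₀ * K) + b := by
            have : W * K = q * (W₀ * K) := by rw [hW]; ring
            omega
          have e3 : (W * K + b - r + q * r₀) % q = (q * (W₀ * K) + b) % q := by rw [e2]
          rw [Nat.add_mul_mod_self_left, Nat.mul_add_mod] at e3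
          rw [e3]
          exact hba
        intro h hh
        rw [mem_image] at hh
        obtain ⟨i, hi, rfl⟩ := hh
        have h1 := (h9 K hK).2 i hi
        have e : W * K + b - r + q * (W₀ * t i + r₀) = W * (K + t i) + b := by
          have e4 : q * (W₀ * t i + r₀) = W * t i + r := by rw [hW, hr]; ring
          have : W * (K + t i) = W * K + W * t i := by ring
          omega
        simp only
        rw [e]
        exact Gf_mono A B C F N δ ε₁ hδ (by omega) _ h1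
      · intro K hK K' hK' hKK
        have h1 := hbds K (h9 K hK).1
        have h2 := hbds K' (h9 K' hK').1
        have h0 : W * K + b - r = W * K' + b - r := hKK
        have h3 : W * K = W * K' := by
          have h4 := h1.1
          have h5 := h2.1
          clear * - h0 h4 h5
          omega
        exact Nat.eq_of_mul_eq_mul_left hW0 h3
    have e2 : (X : ℝ) / (q * Real.log N ^ (aL + 1)) ≤ A'.card := by
      refine le_trans ?_ h2
      have h3' : (X : ℝ) ≤ 4 * ((W₀ * q) * L) := by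
        have : (X : ℝ) ≤ ((4 * (W * L) : ℕ) : ℝ) := by exact_mod_cast h6
        rw [hW] at this
        push_cast at this
        linarith
      have h4' : Real.log ((N ^ 2 : ℕ) : ℝ) = 2 * Real.log N := by
        push_cast
        rw [Real.log_pow]
        norm_num
      rw [h4', mul_pow] at h3
      rw [div_le_iff₀ (by positivity)]
      rw [div_le_iff₀ hc] at hlog
      have h6 : (0 : ℝ) ≤ L := Nat.cast_nonneg L
      calc (X : ℝ) ≤ 4 * ((W₀ * q) * L) * 1 := by rw [mul_one]; exact h3'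
        _ ≤ 4 * ((W₀ * q) * L) * (2 ^ aL * Real.log N ^ aL * Vp F W b z t) :=
            mul_le_mul_of_nonneg_left h3 (by positivity)
        _ = (q * L * Real.log N ^ aL * Vp F W b z t) * (2 ^ aL * (4 * W₀)) := by ring
        _ ≤ (q * L * Real.log N ^ aL * Vp F W b z t) * (Real.log N * c) :=
            mul_le_mul_of_nonneg_left hlog (by positivity)
        _ = _ := by ring
    refine e2.trans ?_
    exact_mod_cast e1

open Classical in
/-- **Clusters of values with at most two prime factors, uniformly, in classes.** -/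
theorem clu_q (A : ℕ) (B C : ℤ) (hA : 1 ≤ A) (hna : ¬ IsSquare (-(dt A B C)))
    (CG : ℕ) (hGs : ∀ n : ℕ, fv A B C (n : ℤ) ≠ 0 ∧ (fv A B C (n : ℤ)).natAbs ≤ CG * (n + 1) ^ 2) :
    ∃ δ₀ : ℝ, 0 < δ₀ ∧ δ₀ ≤ 1 / 100 ∧ ∀ g : ℕ, 1 ≤ g → Sys g (fv A B C) →
    ∃ Cc : ℝ, 0 < Cc ∧ ∀ m : ℕ,
    ∃ (K₀ D : ℕ) (δ : ℝ), 0 < δ ∧ (K₀ : ℝ) ≤ Real.exp (Real.exp (Cc * (m + 1))) ∧
      ∀ᶠ N : ℕ in atTop, ∀ F : ℤ → ℤ, Sys0 g F →
        (∀ p : ℕ, p.Prime → ∀ n : ℤ, (p : ℤ) ∣ fv A B C n → (p : ℤ) ∣ F n) →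
        ∀ q a : ℕ, 0 < q → (q : ℝ) ≤ (N : ℝ) ^ δ →
        (∀ p : ℕ, p.Prime → p ∣ q → ¬ (p : ℤ) ∣ F a) →
        ∀ S : Finset ℕ, K₀ ≤ S.card → (∀ h ∈ S, (h : ℝ) ≤ (N : ℝ) ^ δ) →
        ∀ X : ℕ, (N : ℝ) ^ (1 - δ₀) ≤ X → 2 * X ≤ N →
        ∃ H ⊆ S, H.card = m ∧
          X / (q * Real.log N ^ D) ≤ (((Ioc N (N + X)).filter (fun n : ℕ => n % q = a % q ∧
            ∀ h ∈ H, Gf A B C F N δ (n + q * h))).card : ℝ) := by
  classical
  obtain ⟨κ, hκ, hκ1, hmid⟩ := mid A B C hA hna CG hGs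
  refine ⟨κ / 2, by positivity, by linarith, ?_⟩
  intro g hg1 hG
  obtain ⟨Cc, hCc, hmid⟩ := hmid g hg1 hG
  refine ⟨Cc, hCc, ?_⟩
  intro m
  obtain ⟨k, W₀, ε₁, c, η, hKb, hW₀2, hW₀sq, hW₀p, hε, hεζ, hc, hη0, hηε, hη2, hmid⟩ := hmid m
  have hW₀0 : 0 < W₀ := by omega
  obtain ⟨aL, haL⟩ : ∃ aL : ℕ, aL = 2 * (g * 2 ^ k) + 1 := ⟨_, rfl⟩
  rw [← haL] at hmid
  have hev : ∀ᶠ N : ℕ in atTop, 2 ^ aL * (4 * W₀) / c ≤ Real.log (N : ℝ) :=
    (Real.tendsto_log_atTop.comp tendsto_natCast_atTop_atTop).eventually_ge_atTop _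
  have hev1 : ∀ᶠ N : ℕ in atTop, (W₀ : ℝ) ≤ (N : ℝ) ^ (η / 2) :=
    ((tendsto_rpow_atTop (by positivity)).comp tendsto_natCast_atTop_atTop).eventually_ge_atTop _
  refine ⟨W₀ * 2 ^ k, aL + 1, η / 2, by positivity, hKb, ?_⟩
  filter_upwards [hmid, hev, hev1, eventually_ge_atTop 5] with N hN hlog hW₀N hN5 F hF hGF q a hq hqN
    haq S hS hSb X hX1 hX2
  have hNr : (5 : ℝ) ≤ N := by exact_mod_cast hN5
  have hN0 : (0 : ℝ) < N := by linarith
  have hN1 : (1 : ℝ) ≤ N := by linarith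
  obtain ⟨r₀, t, hrW, ht, hmem⟩ := shifts W₀ (2 ^ k) hW₀0 S hS
  obtain ⟨b, hbW, hba, hb⟩ := exbq hF W₀ q a hW₀0 hW₀sq hq haq
  have hti : ∀ i, (t i : ℝ) ≤ (N : ℝ) ^ η := by
    intro i
    refine le_trans ?_ ((hSb _ (hmem i)).trans (Real.rpow_le_rpow_of_exponent_le hN1 (by linarith)))
    have h1 : t i ≤ W₀ * t i + r₀ := by
      have := Nat.le_mul_of_pos_left (t i) hW₀0
      omega
    exact_mod_cast h1
  have hWN : ((W₀ * q : ℕ) : ℝ) ≤ (N : ℝ) ^ η := by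
    push_cast
    calc (W₀ : ℝ) * q ≤ (N : ℝ) ^ (η / 2) * (N : ℝ) ^ (η / 2) :=
          mul_le_mul hW₀N hqN (Nat.cast_nonneg _) (by positivity)
      _ = _ := by rw [← Real.rpow_add hN0]; congr 1; ring
  have hrq : q * r₀ < W₀ * q := by
    rw [mul_comm W₀ q]
    exact Nat.mul_lt_mul_of_pos_left hrW hq
  obtain ⟨L, z, M, Hs, A', h1, h2, h3, h4, h5, h7, h9, h10, h11⟩ :=
    hN (W₀ * q) (Nat.mul_pos hW₀0 hq) (dvd_mul_right _ _) hWN t ht hti F hF hGF b hbW hb (q * r₀) hrq X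
      hX1 hX2
  obtain ⟨w1, w2, w3⟩ := wrapq A B C F N W₀ q a b r₀ k m L z M X aL ε₁ (η / 2) c t Hs A' S hW₀2 hq hbW
    hba hrW ht hmem hc hN5 (by linarith) hlog h1 h2 h3 h4 h5 h7 h9 h10 h11
  exact ⟨_, w1, w2, w3⟩

end Pool.Agent.H543.MQ.V
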